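import Mathlib

/-! Infinite finitely generated virtually solvable groups virtually map onto the integers. -/

set_option autoImplicit false

namespace Pool.Agent.H817.IB

open Subgroup

/-- an infinite finitely generated commutative group maps onto the integers -/
theorem comm_onto (A : Type) [CommGroup A] [Group.FG A] (hinf : Infinite A) :
    ∃ f : A →* Multiplicative ℤ, Function.Surjective f := by
  obtain ⟨ι, j, hι, hj, p, hp, e, ⟨φ⟩⟩ := CommGroup.equiv_free_prod_prod_multiplicative_zmod A
  rcases isEmpty_or_nonempty j with h | ⟨⟨i⟩⟩
  · exfalso
    have hne : ∀ i, NeZero (p i ^ e i) := fun i => ⟨pow_ne_zero _ (hp i).ne_zero⟩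
    have h1 : Finite (∀ i : ι, Multiplicative (ZMod (p i ^ e i))) := by
      have : ∀ i, Finite (Multiplicative (ZMod (p i ^ e i))) := fun i =>
        inferInstanceAs (Finite (ZMod (p i ^ e i)))
      infer_instance
    have h2 : Finite ((j → Multiplicative ℤ) × (∀ i : ι, Multiplicative (ZMod (p i ^ e i)))) := by
      infer_instance
    exact hinf.not_finite (Finite.of_equiv _ φ.symm.toEquiv)
  · refine ⟨(Pi.evalMonoidHom (fun _ : j => Multiplicative ℤ) i).comp
      ((MonoidHom.fst _ _).comp φ.toMonoidHom), ?_⟩
    intro z
    refine ⟨φ.symm (fun _ => z, 1), ?_⟩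
    simp

theorem derived_commutator (G : Type) [Group G] (k : ℕ) :
    (derivedSeries (commutator G) k).map (commutator G).subtype ≤ derivedSeries G (k + 1) := by
  induction k with
  | zero =>
    rw [derivedSeries_succ, derivedSeries_zero, derivedSeries_zero]
    intro x hx
    obtain ⟨y, _, rfl⟩ := hx
    have h1 : (y : G) ∈ commutator G := y.2
    have h2 : commutator G = ⁅(⊤ : Subgroup G), ⊤⁆ := commutator_def G
    exact h2 ▸ h1
  | succ k ih =>
    rw [derivedSeries_succ, derivedSeries_succ, Subgroup.map_commutator]
    exact Subgroup.commutator_mono ih ih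

/-- an infinite finitely generated solvable group has a subgroup of finite index which maps onto
the integers -/
theorem solv_onto (j : ℕ) : ∀ (G : Type) [Group G] [Group.FG G], Infinite G →
    derivedSeries G j = ⊥ →
    ∃ B : Subgroup G, B.FiniteIndex ∧ ∃ f : B →* Multiplicative ℤ, Function.Surjective f := by
  induction j with
  | zero =>
    intro G _ _ hinf h
    exfalso
    rw [derivedSeries_zero] at h
    have : Subsingleton G := by
      rw [← Subgroup.subsingleton_iff]
      exact subsingleton_of_bot_eq_top h.symm
    exact not_finite G
  | succ j ih =>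
    intro G _ _ hinf h
    rcases finite_or_infinite (Abelianization G) with hf | hi
    · have hfi : (commutator G).FiniteIndex := by
        have : Finite (G ⧸ commutator G) := hf
        exact Subgroup.finiteIndex_of_finite_quotient
      have hfg : Group.FG (commutator G) := inferInstance
      have hinf' : Infinite (commutator G) := by
        by_contra hcon
        rw [not_infinite_iff_finite] at hcon
        have h1 : Finite (G ⧸ commutator G) := hf
        have : Finite G := by
          have e := Subgroup.groupEquivQuotientProdSubgroup (s := commutator G)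
          exact Finite.of_equiv _ e.symm
        exact not_finite G
      have hder : derivedSeries (commutator G) j = ⊥ := by
        have h1 := derived_commutator G j
        rw [h, le_bot_iff] at h1
        exact (Subgroup.map_eq_bot_iff_of_injective _ (commutator G).subtype_injective).1 h1
      obtain ⟨B, hB, f, hf'⟩ := ih (commutator G) hinf' hder
      refine ⟨B.map (commutator G).subtype, ?_, ?_⟩
      · refine ⟨?_⟩
        rw [Subgroup.index_map_subtype]
        exact mul_ne_zero hB.index_ne_zero hfi.index_ne_zero
      · have e := Subgroup.equivMapOfInjective B (commutator G).subtype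
          (commutator G).subtype_injective
        exact ⟨f.comp e.symm.toMonoidHom, hf'.comp e.symm.surjective⟩
    · have hfg : Group.FG (Abelianization G) := by
        unfold Abelianization
        infer_instance
      obtain ⟨f, hf⟩ := comm_onto (Abelianization G) hi
      refine ⟨⊤, inferInstance, (f.comp Abelianization.of).comp (Subgroup.subtype ⊤), ?_⟩
      intro z
      obtain ⟨a, rfl⟩ := hf z
      obtain ⟨g, rfl⟩ := QuotientGroup.mk_surjective a
      exact ⟨⟨g, trivial⟩, rfl⟩

/-- an infinite finitely generated virtually solvable group has a subgroup of finite index which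
maps onto the integers -/
theorem vsolv_onto (G : Type) [Group G] [Group.FG G] (hinf : Infinite G)
    (h : ∃ A : Subgroup G, A.FiniteIndex ∧ Group.IsSolvable A) :
    ∃ B : Subgroup G, B.FiniteIndex ∧ ∃ f : B →* Multiplicative ℤ, Function.Surjective f := by
  obtain ⟨A, hA, hs⟩ := h
  have hinf' : Infinite A := by
    by_contra hcon
    rw [not_infinite_iff_finite] at hcon
    have h1 : Finite (G ⧸ A) := Subgroup.finite_quotient_of_finiteIndex
    have : Finite G := by
      have e := Subgroup.groupEquivQuotientProdSubgroup (s := A)
      exact Finite.of_equiv _ e.symm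
    exact not_finite G
  obtain ⟨j, hj⟩ := (Group.isSolvable_def A).1 hs
  obtain ⟨B, hB, f, hf'⟩ := solv_onto j A hinf' hj
  refine ⟨B.map A.subtype, ?_, ?_⟩
  · refine ⟨?_⟩
    rw [Subgroup.index_map_subtype]
    exact mul_ne_zero hB.index_ne_zero hA.index_ne_zero
  · have e := Subgroup.equivMapOfInjective B A.subtype A.subtype_injective
    exact ⟨f.comp e.symm.toMonoidHom, hf'.comp e.symm.surjective⟩

end Pool.Agent.H817.IB
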