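import Pool.Agent.H817.PL.Cmp

/-! Groups of closed complete affine manifolds are finitely generated and infinite. -/

set_option autoImplicit false

namespace Pool.Agent.H817.IB

open Set Filter Topology Module
open Pool.Agent.W689.Mk

/-- A lattice-preserving linear map has determinant `1` or `-1`. -/
theorem det_int {E : Type} [AddCommGroup E] [Module ℝ E] {n : ℕ} (b : Basis (Fin n) ℝ E)
    (f : E ≃ₗ[ℝ] E) (h1 : ∀ i j, ∃ m : ℤ, b.repr (f (b j)) i = m)
    (h2 : ∀ i j, ∃ m : ℤ, b.repr (f.symm (b j)) i = m) : |LinearMap.det (f : E →ₗ[ℝ] E)| = 1 := by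
  choose M hM using h1
  choose N hN using h2
  have e1 : LinearMap.toMatrix b b (f : E →ₗ[ℝ] E) =
      (Matrix.of fun i j => M i j).map (Int.cast : ℤ → ℝ) := by
    ext i j
    rw [LinearMap.toMatrix_apply]
    simp [hM]
  have e2 : LinearMap.toMatrix b b (f.symm : E →ₗ[ℝ] E) =
      (Matrix.of fun i j => N i j).map (Int.cast : ℤ → ℝ) := by
    ext i j
    rw [LinearMap.toMatrix_apply]
    simp [hN]
  have d1 : LinearMap.det (f : E →ₗ[ℝ] E) = ((Matrix.of fun i j => M i j).det : ℤ) := by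
    rw [← LinearMap.det_toMatrix b, e1]
    exact (RingHom.map_det (Int.castRingHom ℝ) _).symm
  have d2 : LinearMap.det (f.symm : E →ₗ[ℝ] E) = ((Matrix.of fun i j => N i j).det : ℤ) := by
    rw [← LinearMap.det_toMatrix b, e2]
    exact (RingHom.map_det (Int.castRingHom ℝ) _).symm
  have d3 : LinearMap.det (f : E →ₗ[ℝ] E) * LinearMap.det (f.symm : E →ₗ[ℝ] E) = 1 := by
    rw [← LinearMap.det_comp]
    have : (f : E →ₗ[ℝ] E) ∘ₗ (f.symm : E →ₗ[ℝ] E) = LinearMap.id := by
      ext v; simp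
    rw [this, LinearMap.det_id]
  rw [d1, d2] at d3
  have d4 : (Matrix.of fun i j => M i j).det * (Matrix.of fun i j => N i j).det = 1 := by
    exact_mod_cast d3
  rw [d1]
  rcases Int.isUnit_iff.1 (IsUnit.of_mul_eq_one _ d4) with h | h
  · rw [h]; simp
  · rw [h]; simp

section
variable {X Γ E : Type} [TopologicalSpace X] [Group Γ] [MulAction Γ X] [NormedAddCommGroup E]
  [NormedSpace ℝ E] [FiniteDimensional ℝ E] {dev : X → E} {hol : Γ →* (E ≃ᵃ[ℝ] E)}

theorem hol_mul_apply (g k : Γ) (z : E) : hol (g * k) z = hol g (hol k z) := by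
  rw [map_mul]; rfl

/-- the group of a closed complete affine manifold is finitely generated -/
theorem fg (D : AffData X Γ E dev hol) (hc : IsHomeomorph dev) : Group.FG Γ := by
  obtain ⟨K, hK, hcov⟩ := D.cc
  obtain ⟨R, hR⟩ := (hK.image D.loc.continuous).isBounded.subset_ball 0
  obtain ⟨B, hB⟩ : ∃ B : Set E, B = Metric.ball (0 : E) (max R 1) := ⟨_, rfl⟩
  have hBo : IsOpen B := hB ▸ Metric.isOpen_ball
  have hB0 : (0 : E) ∈ B := by rw [hB]; exact Metric.mem_ball_self (by positivity)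
  have hBc : IsCompact (closure B) := by
    rw [hB]
    exact (Metric.isBounded_ball).isCompact_closure
  have hcovB : ∀ p : E, ∃ γ : Γ, ∃ q ∈ B, hol γ q = p := by
    intro p
    obtain ⟨x, rfl⟩ := hc.surjective p
    obtain ⟨γ, k, hk, rfl⟩ := hcov x
    refine ⟨γ, dev k, ?_, (D.equi γ k).symm⟩
    rw [hB]
    exact Metric.ball_subset_ball (le_max_left _ _) (hR ⟨k, hk, rfl⟩)
  obtain ⟨S, hS⟩ : ∃ S : Set Γ, S = {γ : Γ | ∃ p ∈ B, hol γ p ∈ B} := ⟨_, rfl⟩
  have hSf : S.Finite := by
    let φ := hc.homeomorph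
    have hcomp : IsCompact (dev ⁻¹' closure B) := by
      have h1 : dev ⁻¹' closure B = φ.symm '' closure B := by
        rw [Homeomorph.image_symm]
        rfl
      rw [h1]
      exact hBc.image φ.symm.continuous
    refine (D.pd _ hcomp).subset ?_
    rw [hS]
    rintro γ ⟨p, hp, hp'⟩
    obtain ⟨x, rfl⟩ := hc.surjective p
    refine ⟨x, subset_closure hp, ?_⟩
    show dev (γ • x) ∈ closure B
    rw [D.equi]
    exact subset_closure hp'
  have hgen : Subgroup.closure S = ⊤ := by
    obtain ⟨H, hH⟩ : ∃ H : Subgroup Γ, H = Subgroup.closure S := ⟨_, rfl⟩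
    obtain ⟨V, hV⟩ : ∃ V : Set E, V = ⋃ g ∈ (H : Set Γ), hol g '' B := ⟨_, rfl⟩
    obtain ⟨V', hV'⟩ : ∃ V' : Set E, V' = ⋃ g ∈ (H : Set Γ)ᶜ, hol g '' B := ⟨_, rfl⟩
    have hop : ∀ g : Γ, IsOpen (hol g '' B) := by
      intro g
      have h1 : hol g '' B = (hol g⁻¹) ⁻¹' B := by
        ext z
        constructor
        · rintro ⟨y, hy, rfl⟩
          show hol g⁻¹ (hol g y) ∈ B
          rwa [hol_inv_apply]
        · intro hz
          exact ⟨hol g⁻¹ z, hz, hol_apply_inv g z⟩
      rw [h1]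
      exact hBo.preimage (hol_cont g⁻¹)
    have hVo : IsOpen V := by
      rw [hV]; exact isOpen_biUnion fun g _ => hop g
    have hVo' : IsOpen V' := by
      rw [hV']; exact isOpen_biUnion fun g _ => hop g
    have hun : V ∪ V' = univ := by
      refine eq_univ_of_forall fun p => ?_
      obtain ⟨γ, q, hq, rfl⟩ := hcovB p
      by_cases hγ : γ ∈ H
      · left; rw [hV]; exact mem_biUnion hγ ⟨q, hq, rfl⟩
      · right; rw [hV']; exact mem_biUnion hγ ⟨q, hq, rfl⟩
    have hdisj : V ∩ V' = ∅ := by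
      rw [eq_empty_iff_forall_notMem]
      rintro p ⟨h1, h2⟩
      rw [hV] at h1
      rw [hV'] at h2
      obtain ⟨g, hg, q, hq, rfl⟩ := mem_iUnion₂.1 h1
      obtain ⟨g', hg', q', hq', hqq⟩ := mem_iUnion₂.1 h2
      apply hg'
      have h3 : g⁻¹ * g' ∈ S := by
        rw [hS]
        refine ⟨q', hq', ?_⟩
        rw [hol_mul_apply, hqq, hol_inv_apply]
        exact hq
      have h4 : g⁻¹ * g' ∈ H := hH ▸ Subgroup.subset_closure h3
      have h5 := H.mul_mem hg h4
      rwa [mul_inv_cancel_left] at h5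
    have hVne : V.Nonempty := ⟨0, by
      rw [hV]
      refine mem_biUnion (x := 1) (H.one_mem) ⟨0, hB0, ?_⟩
      rw [map_one]; rfl⟩
    have hV'e : V' = ∅ := by
      by_contra hne
      have hne' : V'.Nonempty := nonempty_iff_ne_empty.2 hne
      have hpc : IsPreconnected (univ : Set E) := isPreconnected_univ
      obtain ⟨z, _, hz⟩ := hpc V V' hVo hVo' (by rw [hun]) (by simpa using hVne) (by simpa using hne')
      rw [hdisj] at hz
      exact hz
    rw [← hH, eq_top_iff]
    intro g _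
    by_contra hg
    have : hol g 0 ∈ V' := by
      rw [hV']; exact mem_biUnion hg ⟨0, hB0, rfl⟩
    rw [hV'e] at this
    exact this
  exact Group.fg_iff.2 ⟨S, hgen, hSf⟩

/-- the group of a closed complete affine manifold of positive dimension is infinite -/
theorem inf (D : AffData X Γ E dev hol) (hc : IsHomeomorph dev) (hE : Nontrivial E) :
    Infinite Γ := by
  by_contra hcon
  rw [not_infinite_iff_finite] at hcon
  obtain ⟨K, hK, hcov⟩ := D.cc
  have hcomp : IsCompact (univ : Set E) := by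
    have h1 : (univ : Set E) = ⋃ γ : Γ, hol γ '' (dev '' K) := by
      refine (eq_univ_of_forall fun p => ?_).symm
      obtain ⟨x, rfl⟩ := hc.surjective p
      obtain ⟨γ, k, hk, rfl⟩ := hcov x
      exact mem_iUnion.2 ⟨γ, dev k, ⟨k, hk, rfl⟩, (D.equi γ k).symm⟩
    rw [h1]
    exact isCompact_iUnion fun γ => (hK.image D.loc.continuous).image (hol_cont γ)
  exact noncompact_univ E hcomp

end

end Pool.Agent.H817.IB
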